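import Pool.Agent.Y142.ZO.Stm

/-!
Splitting off the component `v ∧ F` of a skew-adjoint map by conjugation.
-/

set_option autoImplicit false

open Matrix Polynomial

namespace Pool.Agent.Y96.ZO

open Pool.Agent.Y142.ZO

/-- A commutative algebra which contains two roots of `Q` whose product is a root of `Q` is
trivial, if there are no such roots in the algebraic closure. -/
theorem ideal_top {F : Type} [Field F] (Q : F[X]) (hQ0 : Q ≠ 0)
    (hQ : ∀ x y z : AlgebraicClosure F, aeval x Q = 0 → aeval y Q = 0 → aeval z Q = 0 → x * y ≠ z)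
    {A : Type} [CommRing A] [Algebra F A] (I : Ideal A) (a b : A) (ha : aeval a Q ∈ I)
    (hb : aeval b Q ∈ I) (hab : aeval (a * b) Q ∈ I) : I = ⊤ := by
  by_contra hI
  obtain ⟨m, hm, hIm⟩ := Ideal.exists_le_maximal I hI
  let _ : Field (A ⧸ m) := Ideal.Quotient.field m
  let π : A →ₐ[F] A ⧸ m := Ideal.Quotient.mkₐ F m
  have h0 : ∀ x : A, aeval x Q ∈ I → aeval (π x) Q = 0 := by
    intro x hx
    rw [aeval_algHom_apply]
    exact Ideal.Quotient.eq_zero_iff_mem.2 (hIm hx)
  let L : IntermediateField F (A ⧸ m) := IntermediateField.adjoin F {π a, π b}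
  have halg : Algebra.IsAlgebraic F L := by
    apply IntermediateField.isAlgebraic_adjoin
    intro x hx
    rcases hx with rfl | hx
    · exact (show IsAlgebraic F (π a) from ⟨Q, hQ0, h0 a ha⟩).isIntegral
    · rw [Set.mem_singleton_iff.1 hx]
      exact (show IsAlgebraic F (π b) from ⟨Q, hQ0, h0 b hb⟩).isIntegral
  let φ : L →ₐ[F] AlgebraicClosure F := IsAlgClosed.lift
  have haL : π a ∈ L := IntermediateField.subset_adjoin _ _ (Or.inl rfl)
  have hbL : π b ∈ L := IntermediateField.subset_adjoin _ _ (Or.inr rfl)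
  have h1 : ∀ x : L, aeval (x : A ⧸ m) Q = 0 → aeval (φ x) Q = 0 := by
    intro x hx
    rw [aeval_algHom_apply]
    have h2 : aeval x Q = 0 := by
      have h3 : aeval (x : A ⧸ m) Q = L.val (aeval x Q) := aeval_algHom_apply L.val x Q
      rw [hx] at h3
      exact Subtype.ext h3.symm
    rw [h2, map_zero]
  refine hQ (φ ⟨π a, haL⟩) (φ ⟨π b, hbL⟩) (φ (⟨π a, haL⟩ * ⟨π b, hbL⟩)) (h1 _ (h0 a ha))
    (h1 _ (h0 b hb)) (h1 _ ?_) (map_mul φ _ _).symm
  have := h0 (a * b) hab
  rwa [map_mul] at this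

section mat

variable {F : Type} [Field F] {N : ℕ}

theorem aeval_fix (g : Matrix (Fin N) (Fin N) F) (v : Fin N → F) (h : g *ᵥ v = v) (P : F[X]) :
    (aeval g P) *ᵥ v = P.eval 1 • v := by
  have hn : ∀ n : ℕ, g ^ n *ᵥ v = v := by
    intro n
    induction n with
    | zero => rw [pow_zero, one_mulVec]
    | succ n ih => rw [pow_succ, ← mulVec_mulVec, h, ih]
  rw [aeval_eq_sum_range, Matrix.sum_mulVec, eval_eq_sum_range, Finset.sum_smul]
  exact Finset.sum_congr rfl fun i _ => by rw [smul_mulVec, hn, one_pow, mul_one]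

theorem aeval_tr (g : Matrix (Fin N) (Fin N) F) (P : F[X]) : aeval gᵀ P = (aeval g P)ᵀ := by
  rw [aeval_eq_sum_range, aeval_eq_sum_range, transpose_sum]
  exact Finset.sum_congr rfl fun i _ => by rw [transpose_smul, transpose_pow]

theorem ker_line (g : Matrix (Fin N) (Fin N) F) (v x : Fin N → F) (Q : F[X])
    (hg : g.charpoly = (X - 1) * Q) (hQ : Q.eval 1 ≠ 0) (hv : g *ᵥ v = v) (hv0 : v ≠ 0)
    (hx : g *ᵥ x = x) : ∃ a : F, x = a • v := by
  have h1 := LinearMap.finrank_maxGenEigenspace_eq (Matrix.toLin' g) (1 : F)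
  rw [Matrix.charpoly_toLin', hg] at h1
  have hQ0 : Q ≠ 0 := by rintro rfl; simp at hQ
  have hX : (X - 1 : F[X]) = X - C 1 := by simp
  rw [hX, rootMultiplicity_mul (mul_ne_zero (X_sub_C_ne_zero 1) hQ0), rootMultiplicity_X_sub_C_self,
    rootMultiplicity_eq_zero (p := Q) (x := 1) hQ] at h1
  have hmem : ∀ y : Fin N → F, g *ᵥ y = y →
      y ∈ Module.End.maxGenEigenspace (Matrix.toLin' g) (1 : F) := by
    intro y hy
    apply Module.End.genEigenspace_le_maximal (k := 1)
    rw [Nat.cast_one]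
    change y ∈ Module.End.eigenspace (Matrix.toLin' g) 1
    rw [Module.End.mem_eigenspace_iff, Matrix.toLin'_apply, hy, one_smul]
  obtain ⟨w, hw, hw2⟩ := finrank_eq_one_iff'.1 (show Module.finrank F
    (Module.End.maxGenEigenspace (Matrix.toLin' g) (1 : F)) = 1 by rw [h1])
  obtain ⟨c, hc⟩ := hw2 ⟨v, hmem v hv⟩
  obtain ⟨c', hc'⟩ := hw2 ⟨x, hmem x hx⟩
  have hc2 : c • (w : Fin N → F) = v := congrArg Subtype.val hc
  have hc'2 : c' • (w : Fin N → F) = x := congrArg Subtype.val hc'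
  have hc0 : c ≠ 0 := by rintro rfl; apply hv0; rw [← hc2, zero_smul]
  refine ⟨c' / c, ?_⟩
  rw [← hc2, ← hc'2, smul_smul, div_mul_cancel₀ _ hc0]

/-- `Q(g)` vanishes on the complement of the line of fixed vectors. -/
theorem kill (g : Matrix (Fin N) (Fin N) F) (v φ : Fin N → F) (Q : F[X])
    (hg : g.charpoly = (X - 1) * Q) (hQ : Q.eval 1 ≠ 0) (hv : g *ᵥ v = v) (hφ : φ ᵥ* g = φ)
    (hφv : φ ⬝ᵥ v ≠ 0) (x : Fin N → F) (hx : φ ⬝ᵥ x = 0) : (aeval g Q) *ᵥ x = 0 := by
  have hv0 : v ≠ 0 := by rintro rfl; simp at hφv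
  have hCH : g * aeval g Q = aeval g Q := by
    have h1 := Matrix.aeval_self_charpoly g
    rw [hg, map_mul, map_sub, aeval_X, map_one, sub_mul, one_mul, sub_eq_zero] at h1
    exact h1
  obtain ⟨a, ha⟩ := ker_line g v ((aeval g Q) *ᵥ x) Q hg hQ hv hv0 (by
    rw [mulVec_mulVec, hCH])
  have hφQ : φ ᵥ* (aeval g Q) = Q.eval 1 • φ := by
    have h1 := aeval_fix gᵀ φ (by rw [mulVec_transpose, hφ]) Q
    rwa [aeval_tr, mulVec_transpose] at h1
  have h2 : φ ⬝ᵥ ((aeval g Q) *ᵥ x) = 0 := by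
    rw [dotProduct_mulVec, hφQ, smul_dotProduct, hx, smul_zero]
  rw [ha, dotProduct_smul, smul_eq_mul] at h2
  rw [ha, (mul_eq_zero.1 h2).resolve_right hφv, zero_smul]

/-- right multiplication -/
theorem aeval_right (g : Matrix (Fin N) (Fin N) F) (P : F[X]) (Z : Matrix (Fin N) (Fin N) F) :
    aeval (LinearMap.mulRight F g) P Z = Z * aeval g P := by
  rw [aeval_eq_sum_range, aeval_eq_sum_range, LinearMap.sum_apply, Finset.mul_sum]
  exact Finset.sum_congr rfl fun i _ => by
    rw [LinearMap.smul_apply, LinearMap.pow_mulRight, LinearMap.mulRight_apply, mul_smul_comm]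

/-- left multiplication -/
theorem aeval_left (g : Matrix (Fin N) (Fin N) F) (P : F[X]) (Z : Matrix (Fin N) (Fin N) F) :
    aeval (LinearMap.mulLeft F g) P Z = aeval g P * Z := by
  rw [aeval_eq_sum_range, aeval_eq_sum_range, LinearMap.sum_apply, Finset.sum_mul]
  exact Finset.sum_congr rfl fun i _ => by
    rw [LinearMap.smul_apply, LinearMap.pow_mulLeft, LinearMap.mulLeft_apply, smul_mul_assoc]

/-- the conjugation by `g` -/
noncomputable def conj (g : Matrix (Fin N) (Fin N) F) : Module.End F (Matrix (Fin N) (Fin N) F) :=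
  LinearMap.mulLeft F g * LinearMap.mulRight F g⁻¹

theorem conj_apply (g Z : Matrix (Fin N) (Fin N) F) : conj g Z = g * Z * g⁻¹ := by
  change g * (Z * g⁻¹) = _
  rw [mul_assoc]

theorem comm_conj (g : Matrix (Fin N) (Fin N) F) : Commute (conj g) (LinearMap.mulRight F g) := by
  by_cases hg : IsUnit g.det
  · ext1 Z
    change conj g (Z * g) = conj g Z * g
    rw [conj_apply, conj_apply, mul_assoc, mul_assoc, mul_assoc, mul_assoc,
      Matrix.mul_nonsing_inv _ hg, Matrix.nonsing_inv_mul _ hg]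
  · ext1 Z
    change conj g (Z * g) = conj g Z * g
    rw [conj_apply, conj_apply, Matrix.nonsing_inv_apply_not_isUnit _ hg, mul_zero, mul_zero,
      zero_mul]

theorem conj_mul (g : Matrix (Fin N) (Fin N) F) (hg : IsUnit g.det) :
    conj g * LinearMap.mulRight F g = LinearMap.mulLeft F g := by
  ext1 Z
  change conj g (Z * g) = g * Z
  rw [conj_apply, mul_assoc, mul_assoc, Matrix.mul_nonsing_inv _ hg, mul_one]

/-- the evaluation of polynomials in two variables -/
noncomputable def ev (g : Matrix (Fin N) (Fin N) F) :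
    F[X][X] →ₐ[F] Module.End F (Matrix (Fin N) (Fin N) F) :=
  { eval₂RingHom' ((aeval (conj g) : F[X] →ₐ[F] Module.End F (Matrix (Fin N) (Fin N) F)) :
      F[X] →+* Module.End F (Matrix (Fin N) (Fin N) F)) (LinearMap.mulRight F g) (fun a => by
        change Commute (aeval (conj g) a) _
        induction a using Polynomial.induction_on' with
        | add p q hp hq => rw [map_add]; exact hp.add_left hq
        | monomial n c =>
          rw [aeval_monomial]
          exact (Algebra.commute_algebraMap_left c _).mul_left ((comm_conj g).pow_left n)) with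
    commutes' := fun c => by
      change eval₂ _ _ (algebraMap F F[X][X] c) = _
      rw [IsScalarTower.algebraMap_apply F F[X] F[X][X], Polynomial.algebraMap_apply,
        eval₂_C]
      change aeval (conj g) (algebraMap F F[X] c) = _
      exact (aeval (conj g)).commutes c }

theorem ev_C (g : Matrix (Fin N) (Fin N) F) : ev g (C X) = conj g := by
  change eval₂ _ _ (C X) = _
  rw [eval₂_C]
  exact aeval_X _

theorem ev_X (g : Matrix (Fin N) (Fin N) F) : ev g X = LinearMap.mulRight F g := by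
  change eval₂ _ _ X = _
  rw [eval₂_X]

/-- injectivity -/
theorem inj (g : Matrix (Fin N) (Fin N) F) (v φ : Fin N → F) (Q : F[X]) (hQ0 : Q ≠ 0)
    (hroot : ∀ x y z : AlgebraicClosure F, aeval x Q = 0 → aeval y Q = 0 → aeval z Q = 0 →
      x * y ≠ z)
    (hg : g.charpoly = (X - 1) * Q) (hQ : Q.eval 1 ≠ 0) (hv : g *ᵥ v = v) (hφ : φ ᵥ* g = φ)
    (hφv : φ ⬝ᵥ v ≠ 0) (hdet : IsUnit g.det) (Z : Matrix (Fin N) (Fin N) F) (h1 : Z *ᵥ v = 0)
    (h2 : φ ᵥ* Z = 0) (h3 : aeval (conj g) Q Z = 0) : Z = 0 := by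
  let I : Ideal F[X][X] :=
    { carrier := {T | ev g T Z = 0}
      add_mem' := by
        intro a b ha hb
        change ev g (a + b) Z = 0
        rw [map_add, LinearMap.add_apply, ha, hb, add_zero]
      zero_mem' := by
        change ev g 0 Z = 0
        rw [map_zero, LinearMap.zero_apply]
      smul_mem' := by
        intro c x hx
        change ev g (c * x) Z = 0
        rw [map_mul, Module.End.mul_apply, hx, map_zero] }
  have hI : I = ⊤ := by
    apply ideal_top Q hQ0 hroot I (C X) X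
    · change ev g (aeval (C X) Q) Z = 0
      rw [← aeval_algHom_apply, ev_C, h3]
    · change ev g (aeval X Q) Z = 0
      rw [← aeval_algHom_apply, ev_X, aeval_right]
      -- rows
      rw [← transpose_eq_zero, transpose_mul, ← aeval_tr]
      ext i j
      have h4 := kill gᵀ φ v Q (by rw [charpoly_transpose, hg]) hQ (by rw [mulVec_transpose, hφ])
        (by rw [vecMul_transpose, hv]) (by rw [dotProduct_comm]; exact hφv) (Z j) (by
          rw [dotProduct_comm]; exact congrFun h1 j)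
      exact congrFun h4 i
    · change ev g (aeval (C X * X) Q) Z = 0
      rw [← aeval_algHom_apply, map_mul, ev_C, ev_X, conj_mul g hdet, aeval_left]
      ext i j
      have h4 := kill g v φ Q hg hQ hv hφ hφv (fun i => Z i j) (by exact congrFun h2 j)
      exact congrFun h4 i
  have h1I : (1 : F[X][X]) ∈ I := by rw [hI]; exact Submodule.mem_top
  have h5 : ev g 1 Z = 0 := h1I
  rwa [map_one] at h5

end mat

/-- task SPEC -/
theorem t : S_SPEC := by
  intro F _ _ N B g v Q 𝔤 hB hBdet hiso hv hc0 hchar hroot hskew hstab Z hZ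
  have hchar2 : g.charpoly ≠ 0 := (charpoly_monic g).ne_zero
  have hQ0 : Q ≠ 0 := by rintro rfl; apply hchar2; rw [hchar, mul_zero]
  have hQ1 : Q.eval 1 ≠ 0 := by
    intro h
    have h1 : aeval (1 : AlgebraicClosure F) Q = 0 := by
      have := Polynomial.aeval_algebraMap_apply (AlgebraicClosure F) (1 : F) Q
      rw [map_one] at this
      rw [this, coe_aeval_eq_eval, h, map_zero]
    exact hroot 1 1 1 h1 h1 h1 (mul_one 1)
  have hdet : IsUnit g.det := by
    have h1 := congrArg Matrix.det (show gᵀ * B * g = B from hiso)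
    rw [det_mul, det_mul, det_transpose] at h1
    rw [isUnit_iff_ne_zero]
    intro h
    rw [h, mul_zero] at h1
    exact hBdet h1.symm
  set φ : Fin N → F := v ᵥ* B with hφ_def
  have hφ : φ ᵥ* g = φ := by
    have h1 : v ᵥ* gᵀ = v := by rw [vecMul_transpose, hv]
    calc φ ᵥ* g = (v ᵥ* gᵀ) ᵥ* B ᵥ* g := by rw [h1]
      _ = v ᵥ* (gᵀ * B * g) := by rw [vecMul_vecMul, vecMul_vecMul, Matrix.mul_assoc]
      _ = φ := by rw [show gᵀ * B * g = B from hiso]
  have hφdot : ∀ x, φ ⬝ᵥ x = bil B v x := by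
    intro x
    rw [hφ_def, ← dotProduct_mulVec]
    rfl
  have hφv : φ ⬝ᵥ v ≠ 0 := by rw [hφdot]; exact hc0
  have hginv : g⁻¹ *ᵥ v = v := by
    conv_lhs => rw [← hv]
    rw [mulVec_mulVec, nonsing_inv_mul _ hdet, one_mulVec]
  have hφinv : φ ᵥ* g⁻¹ = φ := by
    conv_lhs => rw [← hφ]
    rw [vecMul_vecMul, mul_nonsing_inv _ hdet, vecMul_one]
  -- the subspace of maps of `H`
  let s : Submodule F (Matrix (Fin N) (Fin N) F) :=
    { carrier := {Y | Y *ᵥ v = 0 ∧ φ ᵥ* Y = 0}
      add_mem' := by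
        intro a b ha hb
        exact ⟨by rw [add_mulVec, ha.1, hb.1, add_zero], by rw [vecMul_add, ha.2, hb.2, add_zero]⟩
      zero_mem' := ⟨by rw [zero_mulVec], by rw [vecMul_zero]⟩
      smul_mem' := by
        intro c x hx
        exact ⟨by rw [smul_mulVec, hx.1, smul_zero], by rw [vecMul_smul, hx.2, smul_zero]⟩ }
  have hstab' : ∀ (t : Submodule F (Matrix (Fin N) (Fin N) F)), (∀ Y ∈ t, conj g Y ∈ t) →
      ∀ (P : F[X]), ∀ Y ∈ t, aeval (conj g) P Y ∈ t := by
    intro t ht P Y hY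
    rw [aeval_eq_sum_range, LinearMap.sum_apply]
    refine Submodule.sum_mem _ fun i _ => ?_
    rw [LinearMap.smul_apply]
    apply Submodule.smul_mem
    have hp : ∀ n : ℕ, (conj g ^ n) Y ∈ t := by
      intro n
      induction n with
      | zero => rw [pow_zero]; exact hY
      | succ n ih => rw [pow_succ', Module.End.mul_apply]; exact ht _ ih
    exact hp i
  have hs : ∀ Y ∈ s, conj g Y ∈ s := by
    intro Y hY
    rw [conj_apply]
    constructor
    · rw [← mulVec_mulVec, hginv, ← mulVec_mulVec, hY.1, mulVec_zero]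
    · rw [← vecMul_vecMul, ← vecMul_vecMul, hφ, hY.2, zero_vecMul]
  have h𝔤 : ∀ Y ∈ 𝔤, conj g Y ∈ 𝔤 := fun Y hY => by rw [conj_apply]; exact hstab Y hY
  -- the decomposition
  set w : Fin N → F := Z *ᵥ v with hw
  have hBZ : Zᵀ * B = - (B * Z) := by
    have h1 : (B * Z)ᵀ = -(B * Z) := hskew Z hZ
    rwa [transpose_mul, hB] at h1
  have hBt : ∀ a b : Fin N → F, a ⬝ᵥ (b ᵥ* B) = b ⬝ᵥ (a ᵥ* B) := by
    intro a b
    rw [dotProduct_comm, ← dotProduct_mulVec]
    congr 1
    rw [← mulVec_transpose, hB]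
  have hwB : w ᵥ* B = - (φ ᵥ* Z) := by
    rw [hw, ← vecMul_transpose, vecMul_vecMul, hBZ, hφ_def, vecMul_vecMul, vecMul_neg]
  have hφw : φ ⬝ᵥ w = 0 := by
    have h1 : φ ⬝ᵥ w = - (φ ⬝ᵥ w) := by
      calc φ ⬝ᵥ w = w ⬝ᵥ (v ᵥ* B) := dotProduct_comm _ _
        _ = v ⬝ᵥ (w ᵥ* B) := hBt _ _
        _ = - (φ ⬝ᵥ w) := by rw [hwB, dotProduct_neg, dotProduct_comm, ← dotProduct_mulVec]
    have h2 : (2 : F) * (φ ⬝ᵥ w) = 0 := by linear_combination h1
    exact (mul_eq_zero.1 h2).resolve_left two_ne_zero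
  set c0 : F := φ ⬝ᵥ v with hc0_def
  set Z1 : Matrix (Fin N) (Fin N) F := Z - c0⁻¹ • wedge B v w with hZ1
  have hwv : wedge B v w *ᵥ v = c0 • w := by
    unfold wedge
    rw [sub_mulVec, vecMulVec_mulVec, vecMulVec_mulVec]
    have h1 : (w ᵥ* B) ⬝ᵥ v = 0 := by rw [dotProduct_comm, hBt, dotProduct_comm]; exact hφw
    rw [h1, ← hφ_def, ← hc0_def]
    simp
  have hφwedge : φ ᵥ* wedge B v w = - c0 • (w ᵥ* B) := by
    unfold wedge
    rw [vecMul_sub, vecMul_vecMulVec, vecMul_vecMulVec, hφw, ← hc0_def]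
    simp
  have hZ1s : Z1 ∈ s := by
    constructor
    · rw [hZ1, sub_mulVec, smul_mulVec, hwv, smul_smul, inv_mul_cancel₀ hφv, one_smul, ← hw,
        sub_self]
    · rw [hZ1, vecMul_sub, vecMul_smul, hφwedge, smul_smul, hwB]
      have : c0⁻¹ * -c0 = -1 := by field_simp
      rw [this, smul_neg, neg_smul, one_smul, neg_neg, sub_self]
  -- the wedge is killed
  let J : (Fin N → F) →ₗ[F] Matrix (Fin N) (Fin N) F :=
    { toFun := fun x => wedge B v x
      map_add' := by
        intro x y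
        unfold wedge
        rw [add_vecMulVec, add_vecMul, vecMulVec_add]
        abel
      map_smul' := by
        intro c x
        unfold wedge
        rw [smul_vecMulVec, smul_vecMul, vecMulVec_smul, RingHom.id_apply, smul_sub] }
  have hJ : ∀ x, conj g (J x) = J (g *ᵥ x) := by
    intro x
    have hBg : B * g⁻¹ = gᵀ * B := by
      have h1 : gᵀ * B * g = B := hiso
      calc B * g⁻¹ = gᵀ * B * g * g⁻¹ := by rw [h1]
        _ = gᵀ * B := by rw [Matrix.mul_assoc, mul_nonsing_inv _ hdet, Matrix.mul_one]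
    change conj g (wedge B v x) = wedge B v (g *ᵥ x)
    rw [conj_apply]
    unfold wedge
    rw [mul_sub, sub_mul, mul_vecMulVec, mul_vecMulVec, vecMulVec_mul, vecMulVec_mul, hv,
      ← hφ_def, hφinv, vecMul_vecMul, hBg, ← vecMul_vecMul, vecMul_transpose]
  have hJP : ∀ (P : F[X]) (x : Fin N → F), aeval (conj g) P (J x) = J ((aeval g P) *ᵥ x) := by
    intro P x
    rw [aeval_eq_sum_range, aeval_eq_sum_range, LinearMap.sum_apply, Matrix.sum_mulVec, map_sum]
    refine Finset.sum_congr rfl fun i _ => ?_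
    rw [LinearMap.smul_apply, smul_mulVec, map_smul]
    congr 1
    have hp : ∀ n : ℕ, (conj g ^ n) (J x) = J ((g ^ n) *ᵥ x) := by
      intro n
      induction n with
      | zero => rw [pow_zero, pow_zero, one_mulVec]; rfl
      | succ n ih => rw [pow_succ', Module.End.mul_apply, ih, hJ, pow_succ', mulVec_mulVec]
    exact hp i
  have hDw : aeval (conj g) Q (wedge B v w) = 0 := by
    have h1 := hJP Q w
    rw [kill g v φ Q hchar hQ1 hv hφ hφv w hφw, map_zero] at h1
    exact h1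
  have hDZ : aeval (conj g) Q Z = aeval (conj g) Q Z1 := by
    rw [hZ1, map_sub, map_smul, hDw, smul_zero, sub_zero]
  -- surjectivity
  set t : Submodule F (Matrix (Fin N) (Fin N) F) := 𝔤 ⊓ s with ht
  have htD : ∀ Y ∈ t, aeval (conj g) Q Y ∈ t := fun Y hY =>
    ⟨hstab' 𝔤 h𝔤 Q Y hY.1, hstab' s hs Q Y hY.2⟩
  have hinj : Function.Injective ((aeval (conj g) Q).restrict htD) := by
    rw [← LinearMap.ker_eq_bot, LinearMap.ker_eq_bot']
    intro Y hY
    apply Subtype.ext
    exact inj g v φ Q hQ0 hroot hchar hQ1 hv hφ hφv hdet Y.1 Y.2.2.1 Y.2.2.2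
      (congrArg Subtype.val hY)
  have hsurj := LinearMap.injective_iff_surjective.1 hinj
  obtain ⟨Z', hZ'⟩ := hsurj ⟨aeval (conj g) Q Z1, ⟨hDZ ▸ hstab' 𝔤 h𝔤 Q Z hZ, hstab' s hs Q Z1 hZ1s⟩⟩
  have hZ'2 : aeval (conj g) Q (Z' : Matrix (Fin N) (Fin N) F) = aeval (conj g) Q Z1 :=
    congrArg Subtype.val hZ'
  have hdiff : (Z' : Matrix (Fin N) (Fin N) F) - Z1 ∈ s := s.sub_mem Z'.2.2 hZ1s
  have h6 := inj g v φ Q hQ0 hroot hchar hQ1 hv hφ hφv hdet ((Z' : Matrix (Fin N) (Fin N) F) - Z1)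
    hdiff.1 hdiff.2 (by rw [map_sub, hZ'2, sub_self])
  have h7 : Z1 ∈ 𝔤 := by rw [← sub_eq_zero.1 h6]; exact Z'.2.1
  have h8 : wedge B v w = c0 • (Z - Z1) := by
    rw [hZ1, sub_sub_cancel, smul_smul, mul_inv_cancel₀ hφv, one_smul]
  rw [h8]
  exact 𝔤.smul_mem _ (𝔤.sub_mem hZ h7)

end Pool.Agent.Y96.ZO
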